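import Pool.Agent.Run7.h560.AP.Bridge

set_option autoImplicit false

/-!
# Pairs of (almost) primes between consecutive squares at positions with restricted digits
-/

namespace Pool.Agent.Results.MP_e94e4b_nt.DigitalPositions

open Finset
open Pool.Agent.Run7.h560.AP

/-- `s / φ(s)` for the sum `s = 2 N ^ 2 + 2 N + 2` of the two numbers. -/
noncomputable def ratio (N : ℕ) : ℝ := ((2 * N ^ 2 + 2 * N + 2 : ℕ) : ℝ) / Nat.totient (2 * N ^ 2 + 2 * N + 2)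

lemma log_bounds (N : ℕ) (hN : 3 ≤ N) : 0 < Real.log N ∧ Real.log N ≤ Real.log (2 * N + 1 : ℕ) ∧
    Real.log (2 * N + 1 : ℕ) ≤ 2 * Real.log N := by
  have h3 : (3 : ℝ) ≤ N := by exact_mod_cast hN
  refine ⟨Real.log_pos (by linarith), ?_, ?_⟩
  · apply Real.log_le_log (by linarith)
    push_cast
    linarith
  · have h1 : (2 : ℝ) * Real.log N = Real.log ((N : ℝ) ^ 2) := by rw [Real.log_pow]; norm_num
    rw [h1]
    apply Real.log_le_log (by positivity)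
    push_cast
    nlinarith

lemma ratio_ge (N : ℕ) : 1 ≤ ratio N := one_le_ratio _ (by omega)

/-- **Main theorem.** -/
theorem result :
    (∀ b : ℕ, 2 ≤ b → ∀ (σ : Type) [Fintype σ] (M : DFA ℕ σ), NonSparse (autoSet b M) →
      ∃ (C : ℝ) (N₀ : ℕ), 0 < C ∧ ∀ N : ℕ, N₀ ≤ N →
        (Set.ncard {k : ℕ | k ∈ autoSet b M ∧ 2 ≤ k ∧ k ≤ 2 * N ∧ (N ^ 2 + k + 1).Prime ∧ ((N + 1) ^ 2 - k).Prime} : ℝ) ≤
          C * below (autoSet b M) (2 * N + 1) * ratio N / Real.log N ^ 2) ∧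
    (∀ b : ℕ, 2 ≤ b → ∀ S : Finset ℕ, 0 ∈ S → 1 ∈ S → ∃ (R : ℕ) (η c : ℝ) (N₀ : ℕ), 0 < η ∧ 0 < c ∧ ∀ N : ℕ, N₀ ≤ N →
      (∃ e ∈ S, e < b ∧ Nat.Coprime (N ^ 2 + e + 1) b ∧ Nat.Coprime ((N + 1) ^ 2 - e) b) →
        c * below (digitSet b S) (2 * N + 1) * ratio N / Real.log N ^ 2 ≤
          (Set.ncard {k : ℕ | k ∈ digitSet b S ∧ 2 ≤ k ∧ k ≤ 2 * N ∧ Almost R ((N : ℝ) ^ η) (N ^ 2 + k + 1) ∧
            Almost R ((N : ℝ) ^ η) ((N + 1) ^ 2 - k)} : ℝ)) := by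
  refine ⟨fun b hb σ _ M hM => ?_, fun b hb S h0 h1 => ?_⟩
  · obtain ⟨C, N₀, hC, h⟩ := pair_upper b hb M (nonsparse b M hM)
    refine ⟨C, N₀ + 3, hC, fun N hN => ?_⟩
    obtain ⟨hl0, hl1, hl2⟩ := log_bounds N (by omega)
    have h2 := h (2 * N + 1) (by omega) ((N : ℤ) ^ 2 + 1) (((N : ℤ) + 1) ^ 2) (2 * N ^ 2 + 2 * N + 2) (by push_cast; ring)
      (by omega) ⟨N ^ 2 + N + 1, by ring⟩
    have h3 := ncard_le_cnt b M (2 * N + 1) (fun n => ((n : ℤ) + ((N : ℤ) ^ 2 + 1)).natAbs.Prime ∧ (((N : ℤ) + 1) ^ 2 - n).natAbs.Prime)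
      {k : ℕ | k ∈ autoSet b M ∧ 2 ≤ k ∧ k ≤ 2 * N ∧ (N ^ 2 + k + 1).Prime ∧ ((N + 1) ^ 2 - k).Prime} (by
      rintro k ⟨a1, a2, a3, a4, a5⟩
      refine ⟨a1, by omega, ?_, ?_⟩
      · have e1 : ((k : ℤ) + ((N : ℤ) ^ 2 + 1)) = ((N ^ 2 + k + 1 : ℕ) : ℤ) := by push_cast; ring
        rw [e1, Int.natAbs_natCast]
        exact a4
      · have e2 : k ≤ (N + 1) ^ 2 := by nlinarith
        have e1 : (((N : ℤ) + 1) ^ 2 - k) = (((N + 1) ^ 2 - k : ℕ) : ℤ) := by rw [Nat.cast_sub e2]; push_cast; ring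
        rw [e1, Int.natAbs_natCast]
        exact a5)
    rw [below_cnt]
    have hr : ((2 * N ^ 2 + 2 * N + 2 : ℕ) : ℝ) / (Nat.totient (2 * N ^ 2 + 2 * N + 2)) = ratio N := by
      unfold ratio
      rfl
    rw [hr] at h2
    have h4 : (0 : ℝ) ≤ C * cnt b M (2 * N + 1) (fun _ => True) * ratio N :=
      mul_nonneg (mul_nonneg hC.le (Nat.cast_nonneg _)) (zero_le_one.trans (ratio_ge N))
    have h5 : C * cnt b M (2 * N + 1) (fun _ => True) * ratio N / Real.log (2 * N + 1 : ℕ) ^ 2 ≤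
        C * cnt b M (2 * N + 1) (fun _ => True) * ratio N / Real.log N ^ 2 := by
      apply div_le_div_of_nonneg_left h4 (by positivity)
      exact pow_le_pow_left₀ hl0.le hl1 2
    have h6 : (Set.ncard {k : ℕ | k ∈ autoSet b M ∧ 2 ≤ k ∧ k ≤ 2 * N ∧ (N ^ 2 + k + 1).Prime ∧ ((N + 1) ^ 2 - k).Prime} : ℝ) ≤
        cnt b M (2 * N + 1) (fun n => ((n : ℤ) + ((N : ℤ) ^ 2 + 1)).natAbs.Prime ∧ (((N : ℤ) + 1) ^ 2 - n).natAbs.Prime) := by
      rw [Nat.cast_le]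
      exact h3
    exact h6.trans (h2.trans h5)
  · obtain ⟨R, η, c₀, N₀, hη, hc₀, h⟩ := pair_lower b hb S h0 h1 2
    have hS := digits_growth b hb S h0 h1
    obtain ⟨g, N₁, hg, hsmall⟩ := few_small b hb (dfa S) hS 2 (16 / c₀) (by positivity)
    refine ⟨R, η, c₀ / 8, N₀ + N₁ + b + 3, hη, by positivity, fun N hN he => ?_⟩
    obtain ⟨e, heS, heb, he1, he2⟩ := he
    obtain ⟨hl0, hl1, hl2⟩ := log_bounds N (by omega)
    have hsq : ∀ k, k ≤ 2 * N → k ≤ (N + 1) ^ 2 := fun k hk => by nlinarith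
    have h2 := h (2 * N + 1) (by omega) ((N : ℤ) ^ 2 + 1) (((N : ℤ) + 1) ^ 2) (2 * N ^ 2 + 2 * N + 2) (by push_cast; ring)
      (by omega) ⟨N ^ 2 + N + 1, by ring⟩ (by
        have e1 : ((N : ℤ) ^ 2 + 1) = ((N ^ 2 + 1 : ℕ) : ℤ) := by push_cast; ring
        rw [e1, Int.natAbs_natCast]
        nlinarith) (by
        have e1 : (((N : ℤ) + 1) ^ 2) = (((N + 1) ^ 2 : ℕ) : ℤ) := by push_cast; ring
        rw [e1, Int.natAbs_natCast]
        nlinarith) ⟨e, heS, heb, by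
          have e1 : ((e : ℤ) + ((N : ℤ) ^ 2 + 1)) = ((N ^ 2 + e + 1 : ℕ) : ℤ) := by push_cast; ring
          rw [e1]
          exact Nat.isCoprime_iff_coprime.2 he1, by
          have e1 : (((N : ℤ) + 1) ^ 2 - e) = (((N + 1) ^ 2 - e : ℕ) : ℤ) := by
            rw [Nat.cast_sub (hsq e (by omega))]; push_cast; ring
          rw [e1]
          exact Nat.isCoprime_iff_coprime.2 he2⟩
    have h3 := cnt_le_ncard b (dfa S) (2 * N + 1)
      (fun n : ℕ => ((n : ℤ) + ((N : ℤ) ^ 2 + 1) ≠ 0 ∧ ((n : ℤ) + ((N : ℤ) ^ 2 + 1)).natAbs.primeFactorsList.length ≤ R ∧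
        ((N : ℤ) + 1) ^ 2 - n ≠ 0 ∧ (((N : ℤ) + 1) ^ 2 - n).natAbs.primeFactorsList.length ≤ R) ∧
        ∀ p : ℕ, p.Prime → (p : ℤ) ∣ (n : ℤ) + ((N : ℤ) ^ 2 + 1) ∨ (p : ℤ) ∣ ((N : ℤ) + 1) ^ 2 - n → ((2 * N + 1 : ℕ) : ℝ) ^ η < p)
      {k : ℕ | k ∈ digitSet b S ∧ 2 ≤ k ∧ k ≤ 2 * N ∧ Almost R ((N : ℝ) ^ η) (N ^ 2 + k + 1) ∧
            Almost R ((N : ℝ) ^ η) ((N + 1) ^ 2 - k)}
      (fin_lt (2 * N + 1) _ (fun k hk => by have := hk.2.2.1; omega)) (range 2) (by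
      rintro k a1 a2 ⟨⟨a3, a4, a5, a6⟩, a7⟩
      by_cases hk : k < 2
      · exact Or.inr (mem_range.2 hk)
      · left
        have e1 : ((k : ℤ) + ((N : ℤ) ^ 2 + 1)) = ((N ^ 2 + k + 1 : ℕ) : ℤ) := by push_cast; ring
        have e2 : (((N : ℤ) + 1) ^ 2 - k) = (((N + 1) ^ 2 - k : ℕ) : ℤ) := by
          rw [Nat.cast_sub (hsq k (by omega))]; push_cast; ring
        rw [e1] at a3 a4 a7
        rw [e2] at a5 a6 a7
        rw [Int.natAbs_natCast] at a4 a6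
        have hpow : (N : ℝ) ^ η ≤ ((2 * N + 1 : ℕ) : ℝ) ^ η := by
          apply Real.rpow_le_rpow (Nat.cast_nonneg _) _ hη.le
          exact_mod_cast (by omega : N ≤ 2 * N + 1)
        refine ⟨?_, by omega, by omega, ⟨by exact_mod_cast a3, a4, fun p hp hpd => ?_⟩, ⟨by exact_mod_cast a5, a6, fun p hp hpd => ?_⟩⟩
        · rw [digit_auto]
          exact a1
        · exact lt_of_le_of_lt hpow (a7 p hp (Or.inl (by exact_mod_cast hpd)))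
        · exact lt_of_le_of_lt hpow (a7 p hp (Or.inr (by exact_mod_cast hpd))))
    rw [card_range] at h3
    rw [digit_auto, below_cnt]
    obtain ⟨x, hx⟩ : ∃ x : ℝ, x = cnt b (dfa S) (2 * N + 1) (fun _ => True) := ⟨_, rfl⟩
    have h4 := hsmall (2 * N + 1) (by omega) 0 (by rw [zero_pow (by omega)]; omega)
    rw [← hx] at h4 h2 ⊢
    rw [Nat.cast_zero, zero_add, mul_one] at h4
    have hr : ((2 * N ^ 2 + 2 * N + 2 : ℕ) : ℝ) / (Nat.totient (2 * N ^ 2 + 2 * N + 2)) = ratio N := by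
      unfold ratio
      rfl
    rw [hr] at h2
    have hL : 0 < Real.log (2 * N + 1 : ℕ) := by linarith
    have hx0 : 0 ≤ x := by rw [hx]; positivity
    have hra := ratio_ge N
    obtain ⟨Y, hY⟩ : ∃ Y : ℝ, Y = c₀ * x * ratio N / Real.log (2 * N + 1 : ℕ) ^ 2 := ⟨_, rfl⟩
    rw [← hY] at h2
    have h5 : 4 ≤ Y := by
      rw [hY, le_div_iff₀ (by positivity)]
      have h6 : c₀ * (16 / c₀ * Real.log (2 * N + 1 : ℕ) ^ 2) ≤ c₀ * x := mul_le_mul_of_nonneg_left h4 hc₀.le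
      have h7 : c₀ * (16 / c₀ * Real.log (2 * N + 1 : ℕ) ^ 2) = 16 * Real.log (2 * N + 1 : ℕ) ^ 2 := by field_simp
      have h8 : c₀ * x ≤ c₀ * x * ratio N := le_mul_of_one_le_right (by positivity) hra
      have h9 : 0 ≤ Real.log (2 * N + 1 : ℕ) ^ 2 := by positivity
      linarith
    have h6 : c₀ / 8 * x * ratio N / Real.log N ^ 2 ≤ Y / 2 := by
      rw [hY]
      have h7 : Real.log (2 * N + 1 : ℕ) ^ 2 ≤ 4 * Real.log N ^ 2 := by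
        have := pow_le_pow_left₀ hL.le hl2 2
        nlinarith
      have h8 : 0 ≤ c₀ * x * ratio N := mul_nonneg (mul_nonneg hc₀.le hx0) (by linarith)
      calc c₀ / 8 * x * ratio N / Real.log N ^ 2 = (c₀ * x * ratio N) / (4 * Real.log N ^ 2) / 2 := by
            field_simp
            ring
        _ ≤ (c₀ * x * ratio N) / Real.log (2 * N + 1 : ℕ) ^ 2 / 2 := by
            apply div_le_div_of_nonneg_right _ (by norm_num)
            exact div_le_div_of_nonneg_left h8 (by positivity) h7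
    have h7 : (cnt b (dfa S) (2 * N + 1) (fun n : ℕ => ((n : ℤ) + ((N : ℤ) ^ 2 + 1) ≠ 0 ∧ ((n : ℤ) + ((N : ℤ) ^ 2 + 1)).natAbs.primeFactorsList.length ≤ R ∧
        ((N : ℤ) + 1) ^ 2 - n ≠ 0 ∧ (((N : ℤ) + 1) ^ 2 - n).natAbs.primeFactorsList.length ≤ R) ∧
        ∀ p : ℕ, p.Prime → (p : ℤ) ∣ (n : ℤ) + ((N : ℤ) ^ 2 + 1) ∨ (p : ℤ) ∣ ((N : ℤ) + 1) ^ 2 - n → ((2 * N + 1 : ℕ) : ℝ) ^ η < p) : ℝ) ≤
        (Set.ncard {k : ℕ | k ∈ digitSet b S ∧ 2 ≤ k ∧ k ≤ 2 * N ∧ Almost R ((N : ℝ) ^ η) (N ^ 2 + k + 1) ∧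
            Almost R ((N : ℝ) ^ η) ((N + 1) ^ 2 - k)} : ℝ) + 2 := by exact_mod_cast h3
    rw [digit_auto] at h7
    linarith

end Pool.Agent.Results.MP_e94e4b_nt.DigitalPositions
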