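import Mathlib
import Pool.Agent.Run7.h337.MK.Reflect
import Pool.Agent.Run7.h880.MK.Maj1
import Pool.Agent.Run7.h794.MK.SiaAll

/-!
# The pairs N^2+k+1, (N+1)^2-k, moved into the primes by flat families of shifts
-/

set_option autoImplicit false

namespace Pool.Agent.Results.MP_e94e4b_nt.FixedSumFlatShifts

open Finset
open Pool.Agent.N384.MQ (Flat)
open Run7.h337.MK (near expd)

theorem result (T U : ℕ) (ε : ℝ) (hε : 0 < ε) (hε1 : ε ≤ 1) :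
    ∃ V C D X₀ : ℕ, ∀ X : ℕ, X₀ ≤ X →
    ∃ E : Finset ℕ, (E.card : ℝ) ≤ X / Real.log X ^ U ∧ ∀ N : ℕ, 1 ≤ N → N ≤ X → N ∉ E →
    ∀ (q q' : ℕ) [NeZero q] [NeZero q'], (X : ℝ) ^ (2 / 3 : ℝ) * Real.log X ^ C ≤ q → (q : ℝ) * Real.log X ^ D ≤ N →
    (X : ℝ) ^ (2 / 3 : ℝ) * Real.log X ^ C ≤ q' → (q' : ℝ) * Real.log X ^ D ≤ N →
    ∀ {ι ι' : Type} (s : Finset ι) (y : ι → ZMod q) (t : Finset ι') (z : ι' → ZMod q'), s.Nonempty → t.Nonempty →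
    Flat q (1 / Real.log X ^ V) s y → Flat q' (1 / Real.log X ^ V) t z →
    ∀ κ μ : ℤ, κ ≠ 0 → (κ.natAbs : ℝ) ≤ Real.log X ^ T → μ ≠ 0 → (μ.natAbs : ℝ) ≤ Real.log X ^ T →
      (∃ F : Finset ℕ, (F.card : ℝ) ≤ N / Real.log X ^ U ∧ ∀ k ∈ Icc 2 (2 * N), k ∉ F →
        IsCoprime ((N : ℤ) ^ 2 + k + 1) κ → IsCoprime (((N : ℤ) + 1) ^ 2 - k) μ →
        |(near N ((N : ℤ) ^ 2 + k + 1) κ y s : ℝ) * near N (((N : ℤ) + 1) ^ 2 - k) μ z t - expd N κ s * expd N μ t| ≤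
          ε * (expd N κ s * expd N μ t)) ∧
      (∀ K ⊆ Icc 2 (2 * N), (N : ℝ) / Real.log X ^ T ≤ K.card →
        (∀ k ∈ K, IsCoprime ((N : ℤ) ^ 2 + k + 1) κ ∧ IsCoprime (((N : ℤ) + 1) ^ 2 - k) μ) →
        |(∑ k ∈ K, (near N ((N : ℤ) ^ 2 + k + 1) κ y s : ℝ) * near N (((N : ℤ) + 1) ^ 2 - k) μ z t) -
          K.card * (expd N κ s * expd N μ t)| ≤ ε * (K.card * (expd N κ s * expd N μ t))) ∧
      (μ.natAbs = 1 →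
        |(∑ k ∈ (Icc 2 (2 * N)).filter (fun k => (N ^ 2 + k + 1).Prime), (near N (((N : ℤ) + 1) ^ 2 - k) μ z t : ℝ)) -
          t.card * (N / (2 * Real.log N ^ 2))| ≤ ε * (t.card * (N / (2 * Real.log N ^ 2)))) := by
  obtain ⟨V, C, D, X₀, h⟩ := Run7.h337.MK.reflect_all
    (Pool.Agent.Run7.h880.MK.t_MAJ1 Pool.Agent.Run7.h794.MK.sia_all) T U ε hε hε1
  exact ⟨V, C, D, X₀, h⟩

end Pool.Agent.Results.MP_e94e4b_nt.FixedSumFlatShifts
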