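import Mathlib
import Pool.Agent.Run7.h899.FX.Law

set_option autoImplicit false

/-!
# The question in random models of the primes sieved up to a power

The question is whether for every `N ≥ 175` there is `k` with `2 ≤ k ≤ 2N` such that `N² + k + 1` and
`(N + 1)² - k` are both prime.  We answer it for ALL large `N`, with an asymptotic formula for the number of
`k` in every interval of length at least `N ^ ε`, in random models of the primes with a growing sieve: the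
integers are decided one after the other, no `n` with a prime factor at most `s(n)` is chosen, where `s` is
ANY function with `s(n) ≤ n ^ δ`, `δ > 0` fixed and small, and the conditional probability of choosing
`n + 1` (without prime factors at most `s(n + 1)`) given the past is asymptotic to
`∏_{q ≤ s(n + 1)} (1 - 1/q)⁻¹ / log n`.  No independence and no rate is assumed, and `s` need not be
monotone.  For `s(n) = n ^ δ` these are random subsets, of positive relative density, of the integers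
without prime factors up to `n ^ δ`.

Proof: the fundamental lemma of the sieve (`Pool.Agent.TH892.SW.fl_set`) gives many rough pairs in every
short interval of positions, and the law of large numbers of the starting file `Pool.Agent.R960.Fam.Law`
(martingales) is applied to all these intervals.
-/

open MeasureTheory Filter
open scoped Topology

namespace Pool.Agent.Results.MP_e94e4b_nt.FixedSumRandomModels

/-- the number of `k` with `a < k ≤ b` for which `N² + k + 1` and `(N + 1)² - k` both belong to `S` -/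
noncomputable def R (S : Set ℕ) (N a b : ℕ) : ℕ :=
  {k : ℕ | (a < k ∧ k ≤ b) ∧ N ^ 2 + k + 1 ∈ S ∧ (N + 1) ^ 2 - k ∈ S}.ncard

/-- `∏_{q ≤ x} (1 - 1/q)⁻¹`, `q` prime -/
noncomputable def W (x : ℕ) : ℝ := ∏ q ∈ (Finset.Icc 1 x).filter Nat.Prime, (1 - (q : ℝ)⁻¹)⁻¹

open Classical in
/-- the density of the model at `m`: `W (s m) / log m` if `m` has no prime factor at most `s m`, and `0`
otherwise -/
noncomputable def rho (s : ℕ → ℕ) (m : ℕ) : ℝ :=
  if ∀ q, q.Prime → q ≤ s m → ¬ q ∣ m then W (s m) / Real.log m else 0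

/-- the expected number: the sum of `rho (N² + k + 1) * rho ((N + 1)² - k)` over `a < k ≤ b` -/
noncomputable def E (s : ℕ → ℕ) (N a b : ℕ) : ℝ :=
  ∑ k ∈ Finset.Ioc a b, rho s (N ^ 2 + k + 1) * rho s ((N + 1) ^ 2 - k)

open Pool.Agent.Run7.h899.FX

lemma rho_eq (s : ℕ → ℕ) (m : ℕ) : rho s m = Pool.Agent.N233.GM.rho s m := rfl

lemma R_eq {Ω : Type} {A : ℕ → Set Ω} (ω : Ω) (N a b : ℕ) :
    (R {k : ℕ | ω ∈ A k} N a b : ℝ) = ∑ k ∈ Finset.Ioc a b,
      Pool.Agent.R528.RM.In A (aa N k) ω * Pool.Agent.R528.RM.In A (bb N k) ω := by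
  classical
  have h0 : {k : ℕ | (a < k ∧ k ≤ b) ∧ N ^ 2 + k + 1 ∈ {k : ℕ | ω ∈ A k} ∧ (N + 1) ^ 2 - k ∈ {k : ℕ | ω ∈ A k}} =
      (((Finset.Ioc a b).filter (fun k => ω ∈ A (aa N k) ∧ ω ∈ A (bb N k)) : Finset ℕ) : Set ℕ) := by
    ext k
    simp only [Set.mem_ofPred_eq, Finset.coe_filter, Finset.mem_Ioc, aa, bb]
  unfold R
  rw [h0, Set.ncard_coe_finset, Finset.card_filter]
  push_cast
  refine Finset.sum_congr rfl fun k _ => ?_
  unfold Pool.Agent.R528.RM.In
  by_cases h1 : ω ∈ A (aa N k)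
  · by_cases h2 : ω ∈ A (bb N k)
    · simp [h1, h2]
    · simp [h2]
  · simp [h1]

/-- **Random models sieved up to a power.**  For every `ε > 0` there is `δ > 0` such that the following
holds.  Let `S n` be the event that `n` is chosen, adapted to a filtration `ℱ`.  Let `s(n)` be natural
numbers with `s(n) ≤ n ^ δ` for all large `n`, let no `n` with a prime factor at most `s(n)` be chosen, and
let the conditional probability of `S (n + 1)` given `ℱ n`, times `log n / ∏_{q ≤ s(n + 1)} (1 - 1/q)⁻¹`,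
tend to `1` along the `n` for which `n + 1` has no prime factor at most `s(n + 1)`, almost surely.  Let
`R(N; a, b)` be the number of `k` with `a < k ≤ b` for which `N² + k + 1` and `(N + 1)² - k` are both
chosen, and `E(N; a, b)` the expected number.
(1) Almost surely, for every `η > 0` and all large `N`, `|R - E| ≤ η E` for all `a, b` with `b ≤ 2N`,
`b - a ≥ N ^ ε`.  (2) `E(N; a, b) ≥ (b - a) N ^ (-ε)` for all large `N` and all these `a, b`.  (3) Almost
surely `R(N; a, b) ≥ (b - a) N ^ (-ε)` for all large `N` and all these `a, b`.  (4) Almost surely for all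
large `N` there is `k` with `2 ≤ k ≤ 2N` such that `N² + k + 1` and `(N + 1)² - k` are both chosen. -/
theorem result (ε : ℝ) (hε : 0 < ε) : ∃ δ : ℝ, 0 < δ ∧
    ∀ {Ω : Type} [mΩ : MeasurableSpace Ω] (μ : Measure Ω) [IsProbabilityMeasure μ]
    (ℱ : Filtration ℕ mΩ) (S : ℕ → Set Ω) (_ : ∀ n, MeasurableSet[ℱ n] (S n)) (s : ℕ → ℕ)
    (_ : ∀ᶠ n : ℕ in atTop, (s n : ℝ) ≤ (n : ℝ) ^ δ)
    (_ : ∀ n, (∃ q, q.Prime ∧ q ≤ s n ∧ q ∣ n) → S n = ∅)
    (_ : ∀ᵐ ω ∂μ, Tendsto (fun n : ℕ =>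
      (μ[(S (n + 1)).indicator (fun _ => (1 : ℝ)) | ℱ n]) ω * Real.log n / W (s (n + 1)))
      (atTop ⊓ 𝓟 {n : ℕ | ∀ q, q.Prime → q ≤ s (n + 1) → ¬ q ∣ n + 1}) (𝓝 1)),
    (∀ᵐ ω ∂μ, ∀ η : ℝ, 0 < η → ∀ᶠ N : ℕ in atTop, ∀ a b : ℕ, b ≤ 2 * N → (N : ℝ) ^ ε ≤ (b : ℝ) - a →
      |(R {k | ω ∈ S k} N a b : ℝ) - E s N a b| ≤ η * E s N a b) ∧
    (∀ᶠ N : ℕ in atTop, ∀ a b : ℕ, b ≤ 2 * N → (N : ℝ) ^ ε ≤ (b : ℝ) - a →
      ((b : ℝ) - a) * (N : ℝ) ^ (-ε) ≤ E s N a b) ∧
    (∀ᵐ ω ∂μ, ∀ᶠ N : ℕ in atTop, ∀ a b : ℕ, b ≤ 2 * N → (N : ℝ) ^ ε ≤ (b : ℝ) - a →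
      ((b : ℝ) - a) * (N : ℝ) ^ (-ε) ≤ R {k | ω ∈ S k} N a b) ∧
    (∀ᵐ ω ∂μ, ∀ᶠ N : ℕ in atTop, ∃ k : ℕ, 2 ≤ k ∧ k ≤ 2 * N ∧
      ω ∈ S (N ^ 2 + k + 1) ∧ ω ∈ S ((N + 1) ^ 2 - k)) := by
  classical
  set e : ℝ := min ε (1 / 2) with he
  have he0 : 0 < e := lt_min hε (by norm_num)
  have heε : e ≤ ε := min_le_left _ _
  have he2 : e ≤ 1 / 2 := min_le_right _ _
  obtain ⟨δ₁, hδ₁, hcount⟩ := count e he0
  obtain ⟨δ₀, hδ₀, hsmall⟩ := Pool.Agent.N233.GM.W_small
  refine ⟨min δ₁ δ₀, lt_min hδ₁ hδ₀, ?_⟩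
  intro Ω mΩ μ hμ ℱ S hS s hs hsieve hd
  have hs1 : ∀ᶠ n : ℕ in atTop, (s n : ℝ) ≤ (n : ℝ) ^ δ₁ := by
    filter_upwards [hs, eventually_ge_atTop 1] with n h1 h2
    exact h1.trans (Real.rpow_le_rpow_of_exponent_le (by exact_mod_cast h2) (min_le_left _ _))
  have hs0 : ∀ᶠ n : ℕ in atTop, (s n : ℝ) ≤ (n : ℝ) ^ δ₀ := by
    filter_upwards [hs, eventually_ge_atTop 1] with n h1 h2
    exact h1.trans (Real.rpow_le_rpow_of_exponent_le (by exact_mod_cast h2) (min_le_right _ _))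
  have hV := hsmall s hs0
  have hcop : ∀ n, ¬ Pool.Agent.N233.GM.Rough s n → S n = ∅ := by
    intro n hn
    unfold Pool.Agent.N233.GM.Rough at hn
    push Not at hn
    exact hsieve n hn
  have hprof := Pool.Agent.N233.GM.profile (μ := μ) (ℱ := ℱ) (A := S) s hV hcop hd
  have hlaw := law (μ := μ) (ℱ := ℱ) (A := S) hS s hprof
  obtain ⟨m1, hm1⟩ := eventually_atTop.1 hV
  -- the expected number, over all positions and over the rough pairs
  have hEE : ∀ᶠ N : ℕ in atTop, ∀ a b : ℕ, b ≤ 2 * N →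
      0 ≤ E s N a b - ∑ k ∈ II s N a b, Pool.Agent.N233.GM.rho1 s (aa N k) * Pool.Agent.N233.GM.rho1 s (bb N k) ∧
      E s N a b - ∑ k ∈ II s N a b, Pool.Agent.N233.GM.rho1 s (aa N k) * Pool.Agent.N233.GM.rho1 s (bb N k) ≤ 1 := by
    filter_upwards [eventually_ge_atTop m1] with N hN a b hb
    have hE : E s N a b = ∑ k ∈ Finset.Ioc a b,
        Pool.Agent.N233.GM.rho1 s (aa N k) * Pool.Agent.N233.GM.rho1 s (bb N k) := by
      unfold E
      refine Finset.sum_congr rfl fun k hk => ?_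
      rw [Finset.mem_Ioc] at hk
      have e0 : (N + 1) ^ 2 = N ^ 2 + 2 * N + 1 := by ring
      have e2 : N ≤ N ^ 2 := Nat.le_self_pow (by norm_num) N
      rw [rho_eq, rho_eq, Pool.Agent.N233.GM.rho1_eq s (aa N k) (hm1 _ (by unfold aa; omega)),
        Pool.Agent.N233.GM.rho1_eq s (bb N k) (hm1 _ (by unfold bb; omega))]
      rfl
    rw [hE]
    refine split s N a b (Pool.Agent.N233.GM.rho1 s) ?_ ?_
    · intro k _
      have g1 := Pool.Agent.N233.GM.rho1_bounds s (aa N k)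
      have g2 := Pool.Agent.N233.GM.rho1_bounds s (bb N k)
      exact ⟨mul_nonneg g1.1 g2.1, mul_le_one₀ g1.2 g2.1 g2.2⟩
    · intro k _ hk
      by_cases h1 : Pool.Agent.N233.GM.Rough s (aa N k)
      · have h2 : ¬ Pool.Agent.N233.GM.Rough s (bb N k) := fun h => hk ⟨h1, h⟩
        unfold Pool.Agent.N233.GM.rho1
        rw [if_neg h2, mul_zero]
      · unfold Pool.Agent.N233.GM.rho1
        rw [if_neg h1, zero_mul]
  have hRR : ∀ (ω : Ω) (N a b : ℕ),
      0 ≤ (R {k | ω ∈ S k} N a b : ℝ) - ∑ k ∈ II s N a b,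
        Pool.Agent.R528.RM.In S (aa N k) ω * Pool.Agent.R528.RM.In S (bb N k) ω ∧
      (R {k | ω ∈ S k} N a b : ℝ) - ∑ k ∈ II s N a b,
        Pool.Agent.R528.RM.In S (aa N k) ω * Pool.Agent.R528.RM.In S (bb N k) ω ≤ 1 := by
    intro ω N a b
    rw [R_eq]
    refine split s N a b (fun m => Pool.Agent.R528.RM.In S m ω) ?_ ?_
    · intro k _
      have g1 := Pool.Agent.R528.RM.In_nonneg (A := S) (aa N k) ω
      have g2 := Pool.Agent.R528.RM.In_nonneg (A := S) (bb N k) ω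
      have g3 := Pool.Agent.R528.RM.In_le (A := S) (aa N k) ω
      have g4 := Pool.Agent.R528.RM.In_le (A := S) (bb N k) ω
      exact ⟨mul_nonneg g1 g2, mul_le_one₀ g3 g2 g4⟩
    · intro k _ hk
      by_cases h1 : Pool.Agent.N233.GM.Rough s (aa N k)
      · have h2 : ¬ Pool.Agent.N233.GM.Rough s (bb N k) := fun h => hk ⟨h1, h⟩
        have h3 : Pool.Agent.R528.RM.In S (bb N k) ω = 0 := by
          unfold Pool.Agent.R528.RM.In
          rw [hcop _ h2]
          simp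
        simp only [h3, mul_zero]
      · have h3 : Pool.Agent.R528.RM.In S (aa N k) ω = 0 := by
          unfold Pool.Agent.R528.RM.In
          rw [hcop _ h1]
          simp
        simp only [h3, zero_mul]
  -- the size of the set of the rough pairs
  have hII : ∀ᶠ N : ℕ in atTop, ∀ a b : ℕ, b ≤ 2 * N → (N : ℝ) ^ e ≤ (b : ℝ) - a →
      ((b : ℝ) - a) * (N : ℝ) ^ (-(e / 2)) ≤ ((II s N a b).card : ℝ) := hcount s hs1
  have hpow : ∀ N : ℕ, 1 ≤ N → ∀ x : ℝ, (N : ℝ) ^ e ≤ x → (N : ℝ) ^ (e / 2) ≤ x * (N : ℝ) ^ (-(e / 2)) := by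
    intro N hN x hx
    have hN0 : (0 : ℝ) < N := by exact_mod_cast hN
    calc (N : ℝ) ^ (e / 2) = (N : ℝ) ^ e * (N : ℝ) ^ (-(e / 2)) := by
          rw [← Real.rpow_add hN0]
          congr 1
          ring
      _ ≤ x * (N : ℝ) ^ (-(e / 2)) := by gcongr
  have hlow2 : ∀ᶠ N : ℕ in atTop, ∀ a b : ℕ, b ≤ 2 * N → (N : ℝ) ^ e ≤ (b : ℝ) - a →
      2 * (((b : ℝ) - a) * (N : ℝ) ^ (-e)) ≤ E s N a b := by
    have t1 := (isLittleO_log_rpow_rpow_atTop (2 : ℝ) (show (0 : ℝ) < e / 2 by positivity)).bound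
      (show (0 : ℝ) < 1 / 18 by norm_num)
    filter_upwards [hII, hEE, low s, tendsto_natCast_atTop_atTop.eventually t1, eventually_ge_atTop 5]
      with N h1 h2 h3 h4 h5 a b hb hab
    have hNr : (5 : ℝ) ≤ N := by exact_mod_cast h5
    have hN0 : (0 : ℝ) < N := by linarith
    have hL0 : 0 < Real.log (N : ℝ) := Real.log_pos (by linarith)
    rw [Real.norm_eq_abs, Real.norm_eq_abs, abs_of_nonneg (Real.rpow_nonneg hL0.le _),
      abs_of_nonneg (Real.rpow_nonneg hN0.le _)] at h4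
    have e5 : Real.log (N : ℝ) ^ (2 : ℝ) = Real.log (N : ℝ) ^ (2 : ℕ) := by
      rw [← Real.rpow_natCast]; norm_num
    rw [e5] at h4
    have g1 := h1 a b hb hab
    have g2 := (h2 a b hb).1
    have g3 := h3 a b hb
    have hba : 0 ≤ (b : ℝ) - a := (Real.rpow_nonneg hN0.le _).trans hab
    have g4 : 2 * (((b : ℝ) - a) * (N : ℝ) ^ (-e)) ≤ ((II s N a b).card : ℝ) / (9 * Real.log N ^ 2) := by
      rw [le_div_iff₀ (by positivity)]
      have e1 : (N : ℝ) ^ (-e) * (N : ℝ) ^ (e / 2) = (N : ℝ) ^ (-(e / 2)) := by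
        rw [← Real.rpow_add hN0]
        congr 1
        ring
      have g5 : 0 ≤ ((b : ℝ) - a) * (N : ℝ) ^ (-e) := mul_nonneg hba (Real.rpow_nonneg hN0.le _)
      calc 2 * (((b : ℝ) - a) * (N : ℝ) ^ (-e)) * (9 * Real.log N ^ 2)
          = ((b : ℝ) - a) * (N : ℝ) ^ (-e) * (18 * Real.log N ^ 2) := by ring
        _ ≤ ((b : ℝ) - a) * (N : ℝ) ^ (-e) * (N : ℝ) ^ (e / 2) := by
            apply mul_le_mul_of_nonneg_left _ g5
            linarith
        _ = ((b : ℝ) - a) * (N : ℝ) ^ (-(e / 2)) := by rw [mul_assoc, e1]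
        _ ≤ _ := g1
    linarith
  have key : ∀ᵐ ω ∂μ, ∀ η : ℝ, 0 < η → ∀ᶠ N : ℕ in atTop, ∀ a b : ℕ, b ≤ 2 * N →
      (N : ℝ) ^ e ≤ (b : ℝ) - a → |(R {k | ω ∈ S k} N a b : ℝ) - E s N a b| ≤ η * E s N a b := by
    filter_upwards [hlaw] with ω hω η hη
    filter_upwards [hω (η / 4) (by positivity), err e (η / 4) he0 (by positivity), hII, hEE, low s,
      eventually_ge_atTop 5] with N h1 h2 h3 h4 h5 h6 a b hb hab
    have hN1 : 1 ≤ N := by omega
    have g1 := h1 a b hb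
    have g3 := h3 a b hb hab
    have g2 := h2 ((II s N a b).card : ℝ) ((hpow N hN1 _ hab).trans g3)
    have g4 := h4 a b hb
    have g5 := h5 a b hb
    have g6 := hRR ω N a b
    set R' := ∑ k ∈ II s N a b, Pool.Agent.R528.RM.In S (aa N k) ω * Pool.Agent.R528.RM.In S (bb N k) ω
    set E' := ∑ k ∈ II s N a b, Pool.Agent.N233.GM.rho1 s (aa N k) * Pool.Agent.N233.GM.rho1 s (bb N k)
    have g7 : η / 4 * (((II s N a b).card : ℝ) / (9 * Real.log N ^ 2)) ≤ η / 4 * E' :=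
      mul_le_mul_of_nonneg_left g5 (by positivity)
    have g8 := abs_le.1 g1
    have g9 : 0 ≤ E' := by
      refine le_trans ?_ g5
      positivity
    have g10 : η * E' ≤ η * E s N a b := mul_le_mul_of_nonneg_left (by linarith [g4.1]) hη.le
    rw [abs_le]
    constructor
    · nlinarith [g8.1, g4.2, g6.1, mul_nonneg hη.le g9]
    · nlinarith [g8.2, g4.1, g6.2, mul_nonneg hη.le g9]
  have hNe : ∀ N : ℕ, 1 ≤ N → (N : ℝ) ^ e ≤ (N : ℝ) ^ ε ∧ (N : ℝ) ^ (-ε) ≤ (N : ℝ) ^ (-e) := fun N hN =>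
    ⟨Real.rpow_le_rpow_of_exponent_le (by exact_mod_cast hN) heε,
      Real.rpow_le_rpow_of_exponent_le (by exact_mod_cast hN) (by linarith)⟩
  have key3 : ∀ᵐ ω ∂μ, ∀ᶠ N : ℕ in atTop, ∀ a b : ℕ, b ≤ 2 * N → (N : ℝ) ^ e ≤ (b : ℝ) - a →
      ((b : ℝ) - a) * (N : ℝ) ^ (-e) ≤ R {k | ω ∈ S k} N a b := by
    filter_upwards [key] with ω hω
    filter_upwards [hω (1 / 2) (by norm_num), hlow2] with N h1 h2 a b hb hab
    have h5 := (abs_le.1 (h1 a b hb hab)).1
    have h6 := h2 a b hb hab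
    linarith
  refine ⟨?_, ?_, ?_, ?_⟩
  · filter_upwards [key] with ω hω η hη
    filter_upwards [hω η hη, eventually_ge_atTop 1] with N h1 h2 a b hb hab
    exact h1 a b hb ((hNe N h2).1.trans hab)
  · filter_upwards [hlow2, eventually_ge_atTop 1] with N h1 h2 a b hb hab
    have h3 := h1 a b hb ((hNe N h2).1.trans hab)
    have hba : 0 ≤ (b : ℝ) - a := (Real.rpow_nonneg (Nat.cast_nonneg _) _).trans hab
    have h4 := mul_le_mul_of_nonneg_left (hNe N h2).2 hba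
    have h5 : 0 ≤ ((b : ℝ) - a) * (N : ℝ) ^ (-e) := mul_nonneg hba (Real.rpow_nonneg (Nat.cast_nonneg _) _)
    linarith
  · filter_upwards [key3] with ω hω
    filter_upwards [hω, eventually_ge_atTop 1] with N h1 h2 a b hb hab
    have h3 := h1 a b hb ((hNe N h2).1.trans hab)
    have hba : 0 ≤ (b : ℝ) - a := (Real.rpow_nonneg (Nat.cast_nonneg _) _).trans hab
    have h4 := mul_le_mul_of_nonneg_left (hNe N h2).2 hba
    linarith
  · filter_upwards [key3] with ω hω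
    filter_upwards [hω, eventually_ge_atTop 5] with N h1 h2
    have hNr : (5 : ℝ) ≤ N := by exact_mod_cast h2
    have hN0 : (0 : ℝ) < N := by linarith
    have h3 : (N : ℝ) ^ e ≤ ((2 * N : ℕ) : ℝ) - ((1 : ℕ) : ℝ) := by
      calc (N : ℝ) ^ e ≤ (N : ℝ) ^ (1 : ℝ) := Real.rpow_le_rpow_of_exponent_le (by linarith) (by linarith)
        _ = N := Real.rpow_one _
        _ ≤ _ := by push_cast; linarith
    have h4 := h1 1 (2 * N) le_rfl h3
    have h5 : 0 < (((2 * N : ℕ) : ℝ) - ((1 : ℕ) : ℝ)) * (N : ℝ) ^ (-e) := by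
      apply mul_pos _ (Real.rpow_pos_of_pos hN0 _)
      exact lt_of_lt_of_le (Real.rpow_pos_of_pos hN0 _) h3
    have h6 : 0 < R {k | ω ∈ S k} N 1 (2 * N) := by
      have : (0 : ℝ) < (R {k | ω ∈ S k} N 1 (2 * N) : ℝ) := lt_of_lt_of_le h5 h4
      exact_mod_cast this
    unfold R at h6
    have h7 := Set.nonempty_of_ncard_ne_zero h6.ne'
    obtain ⟨k, ⟨hk1, hk2⟩, hk3, hk4⟩ := h7
    exact ⟨k, by omega, hk2, hk3, hk4⟩

end Pool.Agent.Results.MP_e94e4b_nt.FixedSumRandomModels
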