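import Pool.Agent.Run7.h673.SP.BetF

/-!
# Primes between consecutive squares whose sum is near the fixed one, up to terms of thin sequences of superpolynomial growth

For almost all `N` the number of the pairs `(k, j)` with `2 ≤ k ≤ 2 N`, `y < j ≤ x`, `N ^ 2 + k + 1` prime and
`(N + 1) ^ 2 - k ± ⌊exp (φ (log j))⌋` a prime between `N ^ 2` and `(N + 1) ^ 2` is `(x - y) N / (2 log ^ 2 N)` up to a factor
close to `1`, for instance for `φ t = γ t ^ β` with `1 < β < 3 / 2`. The sums of these pairs are the `N ^ o(1)` numbers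
`2 N ^ 2 + 2 N + 2 ± ⌊exp (φ (log j))⌋`. A similar formula is proved for terms of two such sequences, one in each of the
numbers, with arbitrary multipliers, and for the `k` in any set of at least `N / log ^ T N` integers.

From Mathlib: `ContDiffAt ℝ ⊤`: infinitely differentiable at a point; `iteratedDeriv m f`: the derivative of order `m`;
`⌊y⌋₊`: the integer part of `y`, and `0` for `y < 0`; `Int.natAbs κ`: the absolute value; `Nat.totient`: Euler's function;
`Int.toNat z`: the number `z`, and `0` for `z < 0`; `Icc a b`: the integers from `a` to `b`; `Ioc y x`: the integers `k` with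
`y < k ≤ x`.

Method: the exponential sums over the integer parts of `exp (φ (log k))`, `y < k ≤ x`, are small at all frequencies with a
distance of at least `log ^ A / exp (φ (log y))` from the integers (Vinogradov's method of bilinear exponential sums with
the mean value theorem in the form of a starting file; files `Pool.Agent.Run7.h673.SP`). By project MK of this run (helper794,
helper880 and others), localised to short blocks by helper337, the von Mangoldt function minus its mean in the classes prime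
to `κ` has small mean squares over short arcs around the fractions `j / κ` in almost all intervals between squares.
-/

set_option autoImplicit false

namespace Pool.Agent.Results.MP_e94e4b_nt.SuperpolynomialSums

open Finset

/-- The conditions on `φ` for the growth of `f t = exp (φ (log t))`: for some `δ > 0`, `K` and `L₀` and all `y > L₀` the
function `φ` is infinitely differentiable at `y`, `φ y > 0`, `(1 + δ) φ y ≤ y φ' y`, `φ y ≤ y ^ (3 / 2 - δ)`, and
`|φ⁽ᵐ⁾ y| ≤ m! φ y (K / y) ^ m` for all `m ≥ 1`. -/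
def Rapid (φ : ℝ → ℝ) : Prop :=
  ∃ δ K L₀ : ℝ, 0 < δ ∧ ∀ y > L₀, ContDiffAt ℝ ((⊤ : ℕ∞) : WithTop ℕ∞) φ y ∧ 0 < φ y ∧
    (1 + δ) * φ y ≤ y * deriv φ y ∧ φ y ≤ y ^ (3 / 2 - δ) ∧
    ∀ m : ℕ, 1 ≤ m → |iteratedDeriv m φ y| ≤ m.factorial * φ y * (K / y) ^ m

/-- `(y, x]` is a range of length at least `x / log ^ a X` in which `f t = exp (φ (log t))` has values between
`X ^ (2/3) log ^ C X` and `N / log ^ C X`: `y < x`, `x ≤ log ^ a X (x - y)`, `X ^ (2/3) log ^ C X ≤ f y` and
`f x log ^ C X ≤ N`. -/
def Range (φ : ℝ → ℝ) (a C X N x y : ℕ) : Prop :=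
  y < x ∧ (x : ℝ) ≤ Real.log X ^ a * ((x : ℝ) - y) ∧
    (X : ℝ) ^ (2 / 3 : ℝ) * Real.log X ^ C ≤ Real.exp (φ (Real.log y)) ∧ Real.exp (φ (Real.log x)) * Real.log X ^ C ≤ N

/-- The number of the `j` in `(y, x]` for which `m + κ ⌊exp (φ (log j))⌋` is a prime strictly between `N ^ 2` and
`(N + 1) ^ 2`. -/
noncomputable def near (φ : ℝ → ℝ) (N x y : ℕ) (κ : ℤ) (m : ℕ) : ℕ :=
  ((Ioc y x).filter fun j : ℕ => ((N ^ 2 : ℕ) : ℤ) < (m : ℤ) + κ * ⌊Real.exp (φ (Real.log j))⌋₊ ∧
    (m : ℤ) + κ * ⌊Real.exp (φ (Real.log j))⌋₊ < (((N + 1) ^ 2 : ℕ) : ℤ) ∧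
    ((m : ℤ) + κ * ⌊Real.exp (φ (Real.log j))⌋₊).toNat.Prime).card

/-- The expected value of `near`: `κ / φ(κ) (x - y) / (2 log N)`. -/
noncomputable def expd (N x y : ℕ) (κ : ℤ) : ℝ :=
  (κ.natAbs / (Nat.totient κ.natAbs : ℝ)) * (((x : ℝ) - y) / (2 * Real.log N))

/-- The `k` with `2 ≤ k ≤ 2 N` for which `N ^ 2 + k + 1` is a prime. -/
def primeK (N : ℕ) : Finset ℕ := (Icc 2 (2 * N)).filter fun k => (N ^ 2 + k + 1).Prime

lemma avg {K E : Finset ℕ} (v : ℕ → ℝ) (G B η η' : ℝ) (hG : 0 ≤ G) (hη : 0 ≤ η) (hB : 0 ≤ B) (hv0 : ∀ k ∈ K, 0 ≤ v k)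
    (hvB : ∀ k ∈ K, v k ≤ B) (hv : ∀ k ∈ K, k ∉ E → |v k - G| ≤ η * G) (hE : (E.card : ℝ) * (B + G) ≤ η' * (K.card * G)) :
    |∑ k ∈ K, v k - K.card * G| ≤ (η + η') * (K.card * G) := by
  have e1 : (K.card : ℝ) * G = ∑ k ∈ K, G := by rw [sum_const, nsmul_eq_mul]
  have e2 : ∀ k ∈ K, |v k - G| ≤ η * G + (if k ∈ E then B + G else 0) := by
    intro k hk
    by_cases h : k ∈ E
    · rw [if_pos h]
      have h1 := hv0 k hk
      have h2 := hvB k hk
      have h3 : 0 ≤ η * G := by positivity
      rw [abs_le]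
      constructor <;> linarith
    · rw [if_neg h, add_zero]
      exact hv k hk h
  have h6 : ∑ k ∈ K, (if k ∈ E then B + G else 0) ≤ E.card * (B + G) := by
    rw [← sum_filter, sum_const, nsmul_eq_mul]
    apply mul_le_mul_of_nonneg_right _ (by positivity)
    have : (K.filter fun k => k ∈ E).card ≤ E.card := by
      apply card_le_card
      intro m hm
      exact (mem_filter.1 hm).2
    exact_mod_cast this
  calc |∑ k ∈ K, v k - K.card * G| = |∑ k ∈ K, (v k - G)| := by rw [sum_sub_distrib, ← e1]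
    _ ≤ ∑ k ∈ K, |v k - G| := abs_sum_le_sum_abs _ _
    _ ≤ ∑ k ∈ K, (η * G + (if k ∈ E then B + G else 0)) := sum_le_sum e2
    _ = η * (K.card * G) + ∑ k ∈ K, (if k ∈ E then B + G else 0) := by
        rw [sum_add_distrib, sum_const, nsmul_eq_mul]
        ring
    _ ≤ η * (K.card * G) + η' * (K.card * G) := by linarith
    _ = _ := by ring

lemma prod2 (a b G H η : ℝ) (hG : 0 ≤ G) (hH : 0 ≤ H) (hη : 0 ≤ η) (hη1 : η ≤ 1) (ha : |a - G| ≤ η * G)
    (hb : |b - H| ≤ η * H) : |a * b - G * H| ≤ 3 * η * (G * H) := by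
  have e1 : a * b - G * H = (a - G) * (b - H) + G * (b - H) + (a - G) * H := by ring
  rw [e1]
  have h1 : |(a - G) * (b - H)| ≤ (η * G) * (η * H) := by
    rw [abs_mul]
    exact mul_le_mul ha hb (abs_nonneg _) (by positivity)
  have h2 : |G * (b - H)| ≤ G * (η * H) := by
    rw [abs_mul, abs_of_nonneg hG]
    exact mul_le_mul_of_nonneg_left hb hG
  have h3 : |(a - G) * H| ≤ (η * G) * H := by
    rw [abs_mul, abs_of_nonneg hH]
    exact mul_le_mul_of_nonneg_right ha hH
  have h4 : (η * G) * (η * H) ≤ η * (G * H) := by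
    have : 0 ≤ G * H := by positivity
    calc (η * G) * (η * H) = (η * η) * (G * H) := by ring
      _ ≤ (η * 1) * (G * H) := by
          apply mul_le_mul_of_nonneg_right _ this
          exact mul_le_mul_of_nonneg_left hη1 hη
      _ = η * (G * H) := by ring
  calc |(a - G) * (b - H) + G * (b - H) + (a - G) * H| ≤ |(a - G) * (b - H)| + |G * (b - H)| + |(a - G) * H| :=
        (abs_add_le _ _).trans (add_le_add (abs_add_le _ _) le_rfl)
    _ ≤ η * (G * H) + G * (η * H) + (η * G) * H := by linarith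
    _ = 3 * η * (G * H) := by ring

lemma near_eq (φ : ℝ → ℝ) (N x y : ℕ) (κ : ℤ) (m : ℕ) :
    near φ N x y κ m = Pool.Agent.Run7.h673.SP.nb φ x y κ (N ^ 2) ((N + 1) ^ 2) m := rfl

/-- **(1)** Let `φ`, `ψ` satisfy the conditions `Rapid`, and let `T`, `U`, `a` and `0 < ε ≤ 1` be fixed. There is `C` such that
for all large `X` all `N ≤ X` but at most `X / log ^ U X` of them satisfy: for ALL ranges `(y, x]` for `φ` and `(y', x']` for
`ψ` (`Range`: the values `exp (φ (log j))` are between `X ^ (2/3) log ^ C X` and `N / log ^ C X`), all integers `κ ≠ 0`,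
`μ ≠ 0` of absolute value at most `log ^ T X` and EVERY set `K` of at least `N / log ^ T X` integers `2 ≤ k ≤ 2 N` with
`N ^ 2 + k + 1` prime to `κ` and `(N + 1) ^ 2 - k` prime to `μ`, the number of the triples `(k, i, j)`, `k ∈ K`,
`y < i ≤ x`, `y' < j ≤ x'`, for which `N ^ 2 + k + 1 + κ ⌊exp (φ (log i))⌋` and `(N + 1) ^ 2 - k + μ ⌊exp (ψ (log j))⌋` are
primes strictly between `N ^ 2` and `(N + 1) ^ 2` is `|K| (κ / φ(κ)) (x - y) / (2 log N) (μ / φ(μ)) (x' - y') / (2 log N)` up
to a factor between `1 - ε` and `1 + ε`. If `μ = 1` or `μ = -1`, then the number of the pairs `(k, j)`, `2 ≤ k ≤ 2 N`,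
`y' < j ≤ x'`, for which `N ^ 2 + k + 1` is a prime and `(N + 1) ^ 2 - k + μ ⌊exp (ψ (log j))⌋` is a prime strictly between
`N ^ 2` and `(N + 1) ^ 2` is `(x' - y') N / (2 log ^ 2 N)` up to such a factor.

**(2)** Let `φ` satisfy the conditions `Rapid`, `η > 0`, `C`. For all large `X`, all `N ≤ X` and all `Y` with
`X ^ (2/3 + η) ≤ exp (φ (log Y))` and `exp (φ (log Y)) log ^ C X ≤ N` the interval `(⌊Y / 2⌋, Y]` is a range (`a = 1`).

**(3)** The functions `φ y = γ y ^ β` with `γ > 0` and `1 < β < 3 / 2` satisfy the conditions `Rapid`. -/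
theorem result :
    (∀ φ ψ : ℝ → ℝ, Rapid φ → Rapid ψ → ∀ (T U a : ℕ) (ε : ℝ), 0 < ε → ε ≤ 1 →
      ∃ C X₀ : ℕ, ∀ X : ℕ, X₀ ≤ X →
      ∃ E : Finset ℕ, (E.card : ℝ) ≤ X / Real.log X ^ U ∧ ∀ N : ℕ, 1 ≤ N → N ≤ X → N ∉ E →
      ∀ x y x' y' : ℕ, Range φ a C X N x y → Range ψ a C X N x' y' →
      ∀ κ μ : ℤ, κ ≠ 0 → μ ≠ 0 → (κ.natAbs : ℝ) ≤ Real.log X ^ T → (μ.natAbs : ℝ) ≤ Real.log X ^ T →
        (∀ K ⊆ Icc 2 (2 * N), (∀ k ∈ K, IsCoprime ((N ^ 2 + k + 1 : ℕ) : ℤ) κ ∧ IsCoprime (((N + 1) ^ 2 - k : ℕ) : ℤ) μ) →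
          (N : ℝ) ≤ K.card * Real.log X ^ T →
          |∑ k ∈ K, (near φ N x y κ (N ^ 2 + k + 1) : ℝ) * near ψ N x' y' μ ((N + 1) ^ 2 - k) -
            K.card * (expd N x y κ * expd N x' y' μ)| ≤ ε * (K.card * (expd N x y κ * expd N x' y' μ))) ∧
        (μ = 1 ∨ μ = -1 →
          |∑ k ∈ primeK N, (near ψ N x' y' μ ((N + 1) ^ 2 - k) : ℝ) -
            ((x' : ℝ) - y') * N / (2 * Real.log N ^ 2)| ≤ ε * (((x' : ℝ) - y') * N / (2 * Real.log N ^ 2)))) ∧
    (∀ φ : ℝ → ℝ, Rapid φ → ∀ η : ℝ, 0 < η → ∀ C : ℕ, ∃ X₀ : ℕ, ∀ X : ℕ, X₀ ≤ X → ∀ N : ℕ, N ≤ X → ∀ Y : ℕ,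
      (X : ℝ) ^ (2 / 3 + η) ≤ Real.exp (φ (Real.log Y)) → Real.exp (φ (Real.log Y)) * Real.log X ^ C ≤ N →
      Range φ 1 C X N Y (Y / 2)) ∧
    (∀ γ β : ℝ, 0 < γ → 1 < β → β < 3 / 2 → Rapid (fun y => γ * y ^ β)) := by
  refine ⟨fun φ ψ hφ hψ T U a ε hε hε1 => ?_, fun φ hφ η hη C => ?_,
    fun γ β h1 h2 h3 => Pool.Agent.Run7.h673.SP.rapid_pow γ β h1 h2 h3⟩
  · have hφ' : Pool.Agent.Run7.h673.SP.Rapid φ := hφ
    have hψ' : Pool.Agent.Run7.h673.SP.Rapid ψ := hψ
    obtain ⟨δ, C', L₀, hf⟩ := hφ'.fast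
    obtain ⟨δ', C'', L₀', hf'⟩ := hψ'.fast
    obtain ⟨U', hU'⟩ : ∃ U', U' = T + U + 8 := ⟨_, rfl⟩
    obtain ⟨C₁, W₁, X₁, h1⟩ := hf.bet 1 le_rfl T U' a (ε / 12) (by positivity) (by linarith)
    obtain ⟨C₂, W₂, X₂, h2⟩ := hf'.bet 1 le_rfl T U' a (ε / 12) (by positivity) (by linarith)
    obtain ⟨Vp, Cp, Dp, Xp, hp⟩ := Run7.h337.MK.pow_all Pool.Agent.Run7.h673.SP.t_maj 1 le_rfl T U' (ε / 12) (by positivity)
      (by linarith)
    obtain ⟨N₁, hev⟩ := Filter.eventually_atTop.1 ((Pool.Agent.N384.MQ.ev_log_ge (96 / ε)).and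
      ((Pool.Agent.N384.MQ.ev_log_ge 4).and (Pool.Agent.N384.MQ.ev_log_pow (U' + 1 + (U' + 3)) 1)))
    refine ⟨C₁ + C₂ + W₁ + W₂, X₁ + X₂ + Xp + N₁ + 3, fun X hX => ?_⟩
    obtain ⟨l1, l2, l3⟩ := hev X (by omega)
    obtain ⟨E₁, hE₁, hE₁'⟩ := h1 X (by omega)
    obtain ⟨E₂, hE₂, hE₂'⟩ := h2 X (by omega)
    obtain ⟨Ep, hEp, hEp'⟩ := hp X (by omega)
    obtain ⟨L, hL⟩ : ∃ L, L = Real.log (X : ℝ) := ⟨_, rfl⟩
    rw [← hL] at l1 l2 l3 hE₁ hE₂ hEp
    have hL0 : 0 < L := by linarith
    have hL1 : 1 ≤ L := by linarith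
    have hX0 : (0 : ℝ) < X := by exact_mod_cast (by omega : 0 < X)
    have hpow : ∀ e : ℕ, 1 ≤ L ^ e := fun e => one_le_pow₀ hL1
    refine ⟨E₁ ∪ E₂ ∪ Ep, ?_, fun N hN1 hNX hNE x y x' y' hr hr' κ μ hκ hμ hκT hμT => ?_⟩
    · rw [← hL]
      have e1 : ((E₁ ∪ E₂ ∪ Ep).card : ℝ) ≤ E₁.card + E₂.card + Ep.card := by
        exact_mod_cast (card_union_le _ _).trans (Nat.add_le_add_right (card_union_le _ _) _)
      have e2 : (X : ℝ) / L ^ U' ≤ X / L ^ U / 3 := by
        rw [div_div]
        apply div_le_div_of_nonneg_left hX0.le (by positivity)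
        calc L ^ U * 3 ≤ L ^ U * L := mul_le_mul_of_nonneg_left (by linarith) (by positivity)
          _ = L ^ (U + 1) := (pow_succ _ _).symm
          _ ≤ L ^ U' := pow_le_pow_right₀ hL1 (by omega)
      linarith
    · rw [mem_union, mem_union, not_or, not_or] at hNE
      obtain ⟨⟨hNE₁, hNE₂⟩, hNEp⟩ := hNE
      obtain ⟨⟨n1, n2⟩, g1⟩ := hE₁' N hN1 hNX hNE₁
      obtain ⟨-, g2⟩ := hE₂' N hN1 hNX hNE₂
      obtain ⟨-, np, -⟩ := hEp' N hN1 hNX hNEp
      simp only [pow_one, Nat.cast_one, show (1 + 1 : ℕ) = 2 from rfl] at g1 g2 np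
      rw [show ((1 : ℝ) + 1) = 2 by norm_num] at g1 g2
      have hN0 : (0 : ℝ) < N := by exact_mod_cast hN1
      have hlN : Real.log N ≤ L := by
        rw [hL]
        exact Real.log_le_log hN0 (by exact_mod_cast hNX)
      have hlN0 : 0 < Real.log N := by linarith
      have rg : ∀ (φ : ℝ → ℝ) (x y C W : ℕ), Range φ a (C₁ + C₂ + W₁ + W₂) X N x y → C ≤ C₁ + C₂ + W₁ + W₂ →
          W ≤ C₁ + C₂ + W₁ + W₂ → Pool.Agent.Run7.h673.SP.Rgp φ 1 a C W X N x y := by
        intro φ x y C W hr hC hW
        obtain ⟨r1, r2, r3, r4⟩ := hr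
        refine Pool.Agent.Run7.h673.SP.Rgp.mono (by rw [← hL]; exact hL1) hC hW ⟨r1, ?_, ?_, ?_⟩
        · rw [Nat.cast_sub r1.le]
          exact r2
        · have e1 : (((1 + 1 : ℕ) : ℝ) / 3) = 2 / 3 := by norm_num
          rw [e1]
          exact r3
        · rw [pow_one]
          exact r4
      obtain ⟨F₁, hF₁, hF₁'⟩ := g1 x y (rg φ x y C₁ W₁ hr (by omega) (by omega)) κ hκ hκT
      obtain ⟨F₂, hF₂, hF₂'⟩ := g2 x' y' (rg ψ x' y' C₂ W₂ hr' (by omega) (by omega)) μ hμ hμT
      rw [← hL] at hF₁ hF₂ n1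
      have hc1 : ((x - y : ℕ) : ℝ) = (x : ℝ) - y := Nat.cast_sub hr.1.le
      have hc2 : ((x' - y' : ℕ) : ℝ) = (x' : ℝ) - y' := Nat.cast_sub hr'.1.le
      have hg1 := Run7.h337.MK.g_ge_one κ hκ
      have hg2 := Run7.h337.MK.g_ge_one μ hμ
      have hxy : (0 : ℝ) < (x : ℝ) - y := by
        have : (y : ℝ) < x := by exact_mod_cast hr.1
        linarith
      have hxy' : (0 : ℝ) < (x' : ℝ) - y' := by
        have : (y' : ℝ) < x' := by exact_mod_cast hr'.1
        linarith
      obtain ⟨G, hG⟩ : ∃ G, G = expd N x y κ := ⟨_, rfl⟩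
      obtain ⟨H, hH⟩ : ∃ H, H = expd N x' y' μ := ⟨_, rfl⟩
      have hGx : (x : ℝ) - y ≤ 2 * L * G := by
        rw [hG]
        unfold expd
        have e1 : ((x : ℝ) - y) / (2 * Real.log N) ≤ κ.natAbs / (Nat.totient κ.natAbs : ℝ) * (((x : ℝ) - y) / (2 * Real.log N)) :=
          le_mul_of_one_le_left (by positivity) hg1
        calc (x : ℝ) - y = 2 * Real.log N * (((x : ℝ) - y) / (2 * Real.log N)) := by field_simp
          _ ≤ 2 * L * (κ.natAbs / (Nat.totient κ.natAbs : ℝ) * (((x : ℝ) - y) / (2 * Real.log N))) := by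
              apply mul_le_mul _ e1 (by positivity) (by positivity)
              linarith
      have hHx : (x' : ℝ) - y' ≤ 2 * L * H := by
        rw [hH]
        unfold expd
        have e1 : ((x' : ℝ) - y') / (2 * Real.log N) ≤ μ.natAbs / (Nat.totient μ.natAbs : ℝ) * (((x' : ℝ) - y') / (2 * Real.log N)) :=
          le_mul_of_one_le_left (by positivity) hg2
        calc (x' : ℝ) - y' = 2 * Real.log N * (((x' : ℝ) - y') / (2 * Real.log N)) := by field_simp
          _ ≤ 2 * L * (μ.natAbs / (Nat.totient μ.natAbs : ℝ) * (((x' : ℝ) - y') / (2 * Real.log N))) := by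
              apply mul_le_mul _ e1 (by positivity) (by positivity)
              linarith
      have hG0 : 0 < G := by
        by_contra h
        push Not at h
        have : 2 * L * G ≤ 0 := mul_nonpos_of_nonneg_of_nonpos (by positivity) h
        linarith
      have hH0 : 0 < H := by
        by_contra h
        push Not at h
        have : 2 * L * H ≤ 0 := mul_nonpos_of_nonneg_of_nonpos (by positivity) h
        linarith
      have hpw1 : ∀ m ∈ Ioo (N ^ 2) ((N + 1) ^ 2), m ∉ F₁ → IsCoprime (m : ℤ) κ →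
          |(near φ N x y κ m : ℝ) - G| ≤ ε / 12 * G := by
        intro m hm hmF hc
        have := hF₁' m hm hmF hc
        rw [hc1] at this
        rw [hG]
        exact this
      have hpw2 : ∀ m ∈ Ioo (N ^ 2) ((N + 1) ^ 2), m ∉ F₂ → IsCoprime (m : ℤ) μ →
          |(near ψ N x' y' μ m : ℝ) - H| ≤ ε / 12 * H := by
        intro m hm hmF hc
        have := hF₂' m hm hmF hc
        rw [hc2] at this
        rw [hH]
        exact this
      have hnb1 : ∀ m, (near φ N x y κ m : ℝ) ≤ (x : ℝ) - y := by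
        intro m
        rw [← hc1, near_eq]
        exact_mod_cast Pool.Agent.Run7.h673.SP.nb_le φ x y κ (N ^ 2) ((N + 1) ^ 2) m
      have hnb2 : ∀ m, (near ψ N x' y' μ m : ℝ) ≤ (x' : ℝ) - y' := by
        intro m
        rw [← hc2, near_eq]
        exact_mod_cast Pool.Agent.Run7.h673.SP.nb_le ψ x' y' μ (N ^ 2) ((N + 1) ^ 2) m
      have hsq : (N + 1) ^ 2 = N ^ 2 + 2 * N + 1 := by ring
      -- exceptional k
      obtain ⟨S₁, hS₁⟩ : ∃ S : Finset ℕ, S = (Icc 2 (2 * N)).filter fun k => N ^ 2 + k + 1 ∈ F₁ := ⟨_, rfl⟩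
      obtain ⟨S₂, hS₂⟩ : ∃ S : Finset ℕ, S = (Icc 2 (2 * N)).filter fun k => (N + 1) ^ 2 - k ∈ F₂ := ⟨_, rfl⟩
      have hS₁c : (S₁.card : ℝ) ≤ N / L ^ U' := by
        refine le_trans ?_ hF₁
        have : S₁.card ≤ F₁.card := by
          rw [hS₁]
          apply card_le_card_of_injOn (fun k => N ^ 2 + k + 1)
          · intro k hk
            exact (mem_filter.1 hk).2
          · intro k _ k' _ h
            simp only at h
            omega
        exact_mod_cast this
      have hS₂c : (S₂.card : ℝ) ≤ N / L ^ U' := by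
        refine le_trans ?_ hF₂
        have : S₂.card ≤ F₂.card := by
          rw [hS₂]
          apply card_le_card_of_injOn (fun k => (N + 1) ^ 2 - k)
          · intro k hk
            exact (mem_filter.1 hk).2
          · intro k hk k' hk' h
            have h1 := mem_Icc.1 (mem_filter.1 hk).1
            have h2 := mem_Icc.1 (mem_filter.1 hk').1
            simp only at h
            omega
        exact_mod_cast this
      have hNU : L ^ (U' + 3) ≤ N := by
        have h15 : L ^ (U' + 3) * L ^ (U' + 1) ≤ N * L ^ (U' + 1) := by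
          calc L ^ (U' + 3) * L ^ (U' + 1) = 1 * L ^ (U' + 1 + (U' + 3)) := by ring
            _ ≤ X := l3
            _ ≤ N * L ^ (U' + 1) := n1
        exact le_of_mul_le_mul_right h15 (by positivity)
      have hNU1 : 1 ≤ (N : ℝ) / L ^ U' := by
        rw [le_div_iff₀ (by positivity), one_mul]
        exact (pow_le_pow_right₀ hL1 (by omega)).trans hNU
      have h12 : 15 * (1 / L) ≤ ε / 4 := by
        rw [div_le_iff₀ hε] at l1
        rw [mul_one_div, div_le_iff₀ hL0]
        linarith
      constructor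
      · intro K hKI hKc hKn
        rw [← hL] at hKn
        have hv := avg (K := K) (E := S₁ ∪ S₂ ∪ {2 * N})
          (fun k => (near φ N x y κ (N ^ 2 + k + 1) : ℝ) * near ψ N x' y' μ ((N + 1) ^ 2 - k)) (G * H) ((2 * L * G) * (2 * L * H))
          (3 * (ε / 12)) (ε / 4) (by positivity) (by positivity) (by positivity) (fun k _ => by positivity)
          (fun k _ => mul_le_mul ((hnb1 _).trans hGx) ((hnb2 _).trans hHx) (Nat.cast_nonneg _) (by positivity))
          (fun k hk hkS => by
            rw [mem_union, mem_union, not_or, not_or, mem_singleton] at hkS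
            have hkI := hKI hk
            have hkI' := mem_Icc.1 hkI
            rw [hS₁, mem_filter, not_and, hS₂, mem_filter, not_and] at hkS
            obtain ⟨c1, c2⟩ := hKc k hk
            have hk2N := hkS.2
            exact prod2 _ _ G H (ε / 12) hG0.le hH0.le (by positivity) (by linarith)
              (hpw1 _ (mem_Ioo.2 ⟨by omega, by omega⟩) (hkS.1.1 hkI) c1)
              (hpw2 _ (mem_Ioo.2 ⟨by omega, by omega⟩) (hkS.1.2 hkI) c2))
          (by
            have e1 : ((S₁ ∪ S₂ ∪ {2 * N}).card : ℝ) ≤ 3 * (N / L ^ U') := by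
              have : ((S₁ ∪ S₂ ∪ {2 * N}).card : ℝ) ≤ S₁.card + S₂.card + 1 := by
                exact_mod_cast (card_union_le _ _).trans (Nat.add_le_add_right (card_union_le _ _) _)
              linarith
            have e2 : (2 * L * G) * (2 * L * H) + G * H ≤ (5 * L ^ 2) * (G * H) := by
              have : G * H ≤ L ^ 2 * (G * H) := le_mul_of_one_le_left (by positivity) (hpow 2)
              nlinarith
            have e3 : (N : ℝ) / L ^ U' ≤ K.card / L ^ 8 := by
              rw [div_le_div_iff₀ (by positivity) (by positivity)]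
              calc (N : ℝ) * L ^ 8 ≤ (K.card * L ^ T) * L ^ 8 := mul_le_mul_of_nonneg_right hKn (by positivity)
                _ = K.card * L ^ (T + 8) := by rw [mul_assoc, ← pow_add]
                _ ≤ K.card * L ^ U' := by
                    apply mul_le_mul_of_nonneg_left _ (Nat.cast_nonneg _)
                    exact pow_le_pow_right₀ hL1 (by omega)
            calc ((S₁ ∪ S₂ ∪ {2 * N}).card : ℝ) * ((2 * L * G) * (2 * L * H) + G * H) ≤
                (3 * (K.card / L ^ 8)) * ((5 * L ^ 2) * (G * H)) := by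
                  apply mul_le_mul _ e2 (by positivity) (by positivity)
                  linarith
              _ = (K.card * (G * H)) * (15 * (1 / L ^ 6)) := by
                  field_simp
                  ring
              _ ≤ (K.card * (G * H)) * (ε / 4) := by
                  apply mul_le_mul_of_nonneg_left _ (by positivity)
                  have : 1 / L ^ 6 ≤ 1 / L := by
                    apply one_div_le_one_div_of_le hL0
                    exact le_self_pow₀ hL1 (by norm_num)
                  linarith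
              _ = ε / 4 * (K.card * (G * H)) := by ring)
        rw [← hG, ← hH]
        refine hv.trans ?_
        apply mul_le_mul_of_nonneg_right (by linarith)
        positivity
      · intro hμ1
        -- the number of the k with N² + k + 1 prime
        have hcard : ((primeK N).card : ℝ) ≤ ((Ioo (N ^ 2) ((N + 1) ^ 2)).filter Nat.Prime).card ∧
            (((Ioo (N ^ 2) ((N + 1) ^ 2)).filter Nat.Prime).card : ℝ) ≤ (primeK N).card + 2 := by
          have e1 : (primeK N).card = ((primeK N).image (fun k => N ^ 2 + k + 1)).card :=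
            (card_image_of_injective _ (fun a b h => by
              have h' : N ^ 2 + a + 1 = N ^ 2 + b + 1 := h
              omega)).symm
          have e2 : (primeK N).image (fun k => N ^ 2 + k + 1) ⊆ insert ((N + 1) ^ 2) ((Ioo (N ^ 2) ((N + 1) ^ 2)).filter Nat.Prime) := by
            intro m hm
            rw [mem_image] at hm
            obtain ⟨k, hk, rfl⟩ := hm
            rw [primeK, mem_filter, mem_Icc] at hk
            rw [mem_insert, mem_filter, mem_Ioo]
            by_cases h : k = 2 * N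
            · left
              omega
            · right
              exact ⟨by omega, hk.2⟩
          have e2' : (primeK N).image (fun k => N ^ 2 + k + 1) ⊆ (Ioo (N ^ 2) ((N + 1) ^ 2)).filter Nat.Prime := by
            intro m hm
            have h1 := e2 hm
            rw [mem_insert] at h1
            rcases h1 with h1 | h1
            · exfalso
              rw [mem_image] at hm
              obtain ⟨k, hk, hk2⟩ := hm
              rw [primeK, mem_filter] at hk
              have h2 := hk.2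
              rw [hk2, h1, sq] at h2
              exact Nat.not_prime_mul (by omega) (by omega) h2
            · exact h1
          have e3 : (Ioo (N ^ 2) ((N + 1) ^ 2)).filter Nat.Prime ⊆
              (primeK N).image (fun k => N ^ 2 + k + 1) ∪ Icc (N ^ 2 + 1) (N ^ 2 + 2) := by
            intro m hm
            rw [mem_filter, mem_Ioo] at hm
            rw [mem_union, mem_image, mem_Icc]
            by_cases h : m ≤ N ^ 2 + 2
            · right
              omega
            · left
              refine ⟨m - N ^ 2 - 1, ?_, by omega⟩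
              rw [primeK, mem_filter, mem_Icc]
              refine ⟨⟨by omega, by omega⟩, ?_⟩
              have : N ^ 2 + (m - N ^ 2 - 1) + 1 = m := by omega
              rw [this]
              exact hm.2
          constructor
          · rw [e1]
            exact_mod_cast card_le_card e2'
          · have e4 := (card_le_card e3).trans (card_union_le _ _)
            rw [Nat.card_Icc, ← e1] at e4
            have e5 : N ^ 2 + 2 + 1 - (N ^ 2 + 1) = 2 := by omega
            rw [e5] at e4
            exact_mod_cast e4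
        have hQ0 : 0 < (N : ℝ) / Real.log N := by positivity
        obtain ⟨Q, hQ⟩ : ∃ Q, Q = (N : ℝ) / Real.log N := ⟨_, rfl⟩
        rw [← hQ] at hQ0 np
        have h7 := abs_le.1 np
        have hNL3 : L ^ 3 ≤ N := (pow_le_pow_right₀ hL1 (by omega)).trans hNU
        have h2Q : 2 ≤ ε / 12 * Q := by
          have e1 : L ^ 2 ≤ Q := by
            rw [hQ, le_div_iff₀ hlN0]
            calc L ^ 2 * Real.log N ≤ L ^ 2 * L := mul_le_mul_of_nonneg_left hlN (by positivity)
              _ = L ^ 3 := by ring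
              _ ≤ N := hNL3
          have e2 : 96 ≤ L * ε := by rwa [div_le_iff₀ hε] at l1
          have e3 : L * ε ≤ L ^ 2 * ε := by
            apply mul_le_mul_of_nonneg_right _ hε.le
            exact le_self_pow₀ hL1 (by norm_num)
          have e4 : L ^ 2 * ε ≤ Q * ε := mul_le_mul_of_nonneg_right e1 hε.le
          linarith
        have hk1 : ((primeK N).card : ℝ) ≤ (1 + ε / 6) * Q := by linarith [hcard.1, hcard.2, h7.1, h7.2]
        have hk2 : (1 - ε / 6) * Q ≤ (primeK N).card := by linarith [hcard.1, hcard.2, h7.1, h7.2]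
        have hv := avg (K := primeK N) (E := S₂)
          (fun k => (near ψ N x' y' μ ((N + 1) ^ 2 - k) : ℝ)) H (2 * L * H)
          (ε / 12) (ε / 8) hH0.le (by positivity) (by positivity) (fun k _ => by positivity)
          (fun k _ => (hnb2 _).trans hHx)
          (fun k hk hkS => by
            rw [primeK, mem_filter] at hk
            have hkI := hk.1
            have hkI' := mem_Icc.1 hkI
            rw [hS₂, mem_filter, not_and] at hkS
            refine hpw2 _ (mem_Ioo.2 ⟨by omega, by omega⟩) (hkS hkI) ?_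
            rcases hμ1 with rfl | rfl
            · exact isCoprime_one_right
            · exact isCoprime_one_right.neg_right)
          (by
            have e2 : 2 * L * H + H ≤ (3 * L) * H := by nlinarith
            have e3 : (N : ℝ) / L ^ U' ≤ (2 * (primeK N).card) * L / L ^ 8 := by
              have e4 : (N : ℝ) ≤ (2 * (primeK N).card) * L := by
                have e5 : Q ≤ 2 * (primeK N).card := by
                  have : ε / 6 * Q ≤ 1 / 6 * Q := mul_le_mul_of_nonneg_right (by linarith) hQ0.le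
                  linarith
                calc (N : ℝ) = Q * Real.log N := by rw [hQ]; field_simp
                  _ ≤ (2 * (primeK N).card) * L := mul_le_mul e5 hlN hlN0.le (by positivity)
              rw [div_le_div_iff₀ (by positivity) (by positivity)]
              apply mul_le_mul e4 _ (by positivity) (by positivity)
              exact pow_le_pow_right₀ hL1 (by omega)
            calc (S₂.card : ℝ) * (2 * L * H + H) ≤ ((2 * (primeK N).card) * L / L ^ 8) * ((3 * L) * H) := by
                  apply mul_le_mul (hS₂c.trans e3) e2 (by positivity) (by positivity)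
              _ = ((primeK N).card * H) * (6 * (1 / L ^ 6)) := by
                  field_simp
                  ring
              _ ≤ ((primeK N).card * H) * (ε / 8) := by
                  apply mul_le_mul_of_nonneg_left _ (by positivity)
                  have : 1 / L ^ 6 ≤ 1 / L := by
                    apply one_div_le_one_div_of_le hL0
                    exact le_self_pow₀ hL1 (by norm_num)
                  linarith
              _ = ε / 8 * ((primeK N).card * H) := by ring)
        have hHv : H = ((x' : ℝ) - y') / (2 * Real.log N) := by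
          rw [hH]
          unfold expd
          rcases hμ1 with rfl | rfl <;> simp
        have h4 : ((x' : ℝ) - y') * N / (2 * Real.log N ^ 2) = Q * H := by
          rw [hHv, hQ]
          field_simp
        rw [h4]
        have h8 := abs_le.1 hv
        have h9 : ((primeK N).card : ℝ) * H ≤ ((1 + ε / 6) * Q) * H := mul_le_mul_of_nonneg_right hk1 hH0.le
        have h10 : ((1 - ε / 6) * Q) * H ≤ ((primeK N).card : ℝ) * H := mul_le_mul_of_nonneg_right hk2 hH0.le
        have h11 : 0 ≤ Q * H := by positivity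
        have h13 : (ε / 12 + ε / 8) * (((primeK N).card : ℝ) * H) ≤ (ε / 12 + ε / 8) * (((1 + ε / 6) * Q) * H) :=
          mul_le_mul_of_nonneg_left h9 (by positivity)
        have h14 : ε * ε * (Q * H) ≤ ε * 1 * (Q * H) := by
          apply mul_le_mul_of_nonneg_right _ h11
          exact mul_le_mul_of_nonneg_left hε1 hε.le
        rw [abs_le]
        constructor
        · nlinarith [h8.1]
        · nlinarith [h8.2]
  · have hφ' : Pool.Agent.Run7.h673.SP.Rapid φ := hφ
    obtain ⟨δ, C', L₀, hf⟩ := hφ'.fast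
    obtain ⟨N₀, h0⟩ := hf.half (η / 2) (by positivity) C 1
    obtain ⟨N₃, h3⟩ := Filter.eventually_atTop.1 (Pool.Agent.N384.MQ.ev_log_ge 2)
    refine ⟨N₀ + N₃ + 3, fun X hX N hNX Y h1 h2 => ?_⟩
    have hL := h3 X (by omega)
    have hX1 : (1 : ℝ) ≤ X := by exact_mod_cast (by omega : 1 ≤ X)
    have hX0 : (0 : ℝ) < X := by linarith
    have hnXr : (N : ℝ) ≤ X := by exact_mod_cast hNX
    have hexp := Real.exp_pos (φ (Real.log Y))
    have hX3 : X ≤ X ^ 2 := Nat.le_self_pow (by norm_num) X
    obtain ⟨e1, e2, e3, e4⟩ := h0 (X ^ 2) (by omega) Y (by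
      refine le_trans (le_of_eq ?_) h1
      push_cast
      rw [← Real.rpow_natCast, ← Real.rpow_mul hX0.le]
      congr 1
      push_cast
      ring) (by
      rw [Nat.cast_one, one_mul]
      have e1 : Real.exp (φ (Real.log Y)) ≤ Real.exp (φ (Real.log Y)) * Real.log X ^ C :=
        le_mul_of_one_le_right hexp.le (one_le_pow₀ (by linarith))
      have e2 : (N : ℝ) ≤ ((X ^ 2 : ℕ) : ℝ) := by
        refine hnXr.trans ?_
        exact_mod_cast hX3
      exact e1.trans (h2.trans e2))
    refine ⟨e1, ?_, ?_, h2⟩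
    · have e5 : ((Y / 2 : ℕ) : ℝ) ≤ (Y : ℝ) / 2 := Nat.cast_div_le
      have e6 : (0 : ℝ) ≤ Y := Nat.cast_nonneg _
      rw [pow_one]
      nlinarith
    · refine le_trans ?_ e3
      have e5 : (((X ^ 2 : ℕ) : ℝ)) ^ (1 / 3 : ℝ) = (X : ℝ) ^ (2 / 3 : ℝ) := by
        push_cast
        rw [← Real.rpow_natCast, ← Real.rpow_mul hX0.le]
        norm_num
      rw [e5]
      apply mul_le_mul_of_nonneg_left _ (by positivity)
      apply pow_le_pow_left₀ (by linarith)
      exact Real.log_le_log hX0 (by exact_mod_cast hX3)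

end Pool.Agent.Results.MP_e94e4b_nt.SuperpolynomialSums
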